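import Pool.Agent.Helper49.LT.StA

/-!
# Project LT, module TIP: the length of the boundary curve is at most the integral of the support function
-/

open MeasureTheory Set Filter Metric

namespace Pool.Agent.Helper70.LT

open Helper49.LT Helper97.CB

/-- the boundary curve -/
noncomputable def ZZ (x : ℂ × ℂ) (w : ℝ → ℝ) (t : ℝ) : ℂ := ((1 + w t : ℝ) : ℂ) * zh x t

/-- its right derivative -/
noncomputable def ZD (x : ℂ × ℂ) (w w' : ℝ → ℝ) (t : ℝ) : ℂ :=
  (w' t : ℂ) * zh x t + ((1 + w t : ℝ) : ℂ) * zd x t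

theorem ee_lip (s t : ℝ) : ‖ee s - ee t‖ ≤ |s - t| := by
  have h1 : ee s - ee t = ee t * (ee (s - t) - 1) := by
    have h2 : ee s = ee t * ee (s - t) := by
      rw [← ee_add]
      congr 1
      ring
    rw [h2]
    ring
  rw [h1, norm_mul, norm_ee, one_mul]
  have h3 := Real.norm_exp_I_mul_ofReal_sub_one_le (x := s - t)
  unfold ee
  rw [mul_comm]
  exact h3

section

variable {x : ℂ × ℂ} {w w' : ℝ → ℝ} {η : ℝ}

theorem ZZ_per (hR : Rough η w w') (t : ℝ) : ZZ x w (t + 2 * Real.pi) = ZZ x w t := by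
  unfold ZZ
  rw [hR.per, zh_per]

theorem ZZ_cont (hR : Rough η w w') : Continuous (ZZ x w) := by
  unfold ZZ
  have h1 := hR.con
  have h2 := continuous_zh x
  fun_prop

theorem ZZ_der (hR : Rough η w w') (t : ℝ) : HasDerivWithinAt (ZZ x w) (ZD x w w' t) (Ioi t) t := by
  have h1 : HasDerivWithinAt (fun s => 1 + w s) (w' t) (Ioi t) t := (hR.der t).const_add 1
  have h2 : HasDerivWithinAt (fun s => ((1 + w s : ℝ) : ℂ)) ((w' t : ℝ) : ℂ) (Ioi t) t := h1.ofReal_comp
  exact h2.mul (hasDerivAt_zh x t).hasDerivWithinAt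

theorem ZZ_near (hx : ‖x‖ ≤ 1 / 100) (hη : η ≤ 1 / 100) (hR : Rough η w w') (t : ℝ) :
    ‖ZZ x w t - ee t‖ ≤ 1 / 25 := by
  have h1 : ZZ x w t - ee t = ((w t : ℝ) : ℂ) * zh x t + (zh x t - ee t) := by
    unfold ZZ
    push_cast
    ring
  rw [h1]
  refine le_trans (norm_add_le _ _) ?_
  rw [norm_mul, Complex.norm_real, Real.norm_eq_abs]
  have h2 := hR.bdd t
  have h3 := norm_zh_le x t
  have h4 := zh_sub_ee x t
  have h5 := abs_nonneg (w t)
  have h6 := norm_nonneg (zh x t)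
  nlinarith

theorem ZD_near (hx : ‖x‖ ≤ 1 / 100) (hη : η ≤ 1 / 100) (hR : Rough η w w') (t : ℝ) :
    ‖ZD x w w' t - Complex.I * ee t‖ ≤ 3 / 25 := by
  have h1 : ZD x w w' t - Complex.I * ee t =
      (((w' t : ℝ) : ℂ) * zh x t + ((w t : ℝ) : ℂ) * zd x t) + (zd x t - Complex.I * ee t) := by
    unfold ZD
    push_cast
    ring
  have h0 : ‖zd x t‖ ≤ ‖zd x t - Complex.I * ee t‖ + 1 := by
    have h := norm_add_le (zd x t - Complex.I * ee t) (Complex.I * ee t)
    rw [sub_add_cancel, norm_mul, Complex.norm_I, norm_ee, one_mul] at h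
    exact h
  rw [h1]
  refine le_trans (norm_add_le _ _) ?_
  have h7 := norm_add_le (((w' t : ℝ) : ℂ) * zh x t) (((w t : ℝ) : ℂ) * zd x t)
  rw [norm_mul, norm_mul, Complex.norm_real, Complex.norm_real, Real.norm_eq_abs, Real.norm_eq_abs] at h7
  have h2 := hR.bdd t
  have h2' := hR.bdd' t
  have h3 := norm_zh_le x t
  have h4 := zd_sub_ee x t
  have h5 := abs_nonneg (w t)
  have h5' := abs_nonneg (w' t)
  have h6 := norm_nonneg (zh x t)
  have h6' := norm_nonneg (zd x t)
  nlinarith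

theorem D_near (hx : ‖x‖ ≤ 1 / 100) (hη : η ≤ 1 / 100) (hR : Rough η w w') (t h : ℝ) (h0 : 0 ≤ h) (h1 : h ≤ 1 / 10) :
    ‖ZZ x w (t + h) - ZZ x w t - (h : ℂ) * (Complex.I * ee t)‖ ≤ 1 / 4 * h := by
  have hd : ∀ s ∈ Ico t (t + h), HasDerivWithinAt (fun s : ℝ => ZZ x w s - (s : ℂ) * (Complex.I * ee t))
      (ZD x w w' s - Complex.I * ee t) (Ici s) s := by
    intro s _
    have h2 := (ZZ_der (x := x) hR s).Ici_of_Ioi
    have h3 : HasDerivWithinAt (fun s : ℝ => (s : ℂ) * (Complex.I * ee t)) (1 * (Complex.I * ee t)) (Ici s) s :=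
      ((Complex.ofRealCLM.hasDerivAt (x := s)).hasDerivWithinAt).mul_const _
    rw [one_mul] at h3
    exact h2.sub h3
  have hc : ContinuousOn (fun s : ℝ => ZZ x w s - (s : ℂ) * (Complex.I * ee t)) (Icc t (t + h)) := by
    have h2 := ZZ_cont (x := x) hR
    exact (by fun_prop : Continuous (fun s : ℝ => ZZ x w s - (s : ℂ) * (Complex.I * ee t))).continuousOn
  have hb : ∀ s ∈ Ico t (t + h), ‖ZD x w w' s - Complex.I * ee t‖ ≤ 1 / 4 := by
    intro s hs
    have h2 : ZD x w w' s - Complex.I * ee t = (ZD x w w' s - Complex.I * ee s) + Complex.I * (ee s - ee t) := by ring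
    rw [h2]
    refine le_trans (norm_add_le _ _) ?_
    rw [norm_mul, Complex.norm_I, one_mul]
    have h3 := ZD_near hx hη hR s
    have h4 := ee_lip s t
    rw [abs_of_nonneg (by linarith [hs.1])] at h4
    linarith [hs.2]
  have h2 := norm_image_sub_le_of_norm_deriv_right_le_segment hc hd hb (t + h) ⟨by linarith, le_rfl⟩
  have h3 : ZZ x w (t + h) - ((t + h : ℝ) : ℂ) * (Complex.I * ee t) - (ZZ x w t - (t : ℂ) * (Complex.I * ee t)) =
      ZZ x w (t + h) - ZZ x w t - (h : ℂ) * (Complex.I * ee t) := by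
    push_cast
    ring
  rw [h3] at h2
  have h4 : (1 : ℝ) / 4 * (t + h - t) = 1 / 4 * h := by ring
  rw [h4] at h2
  exact h2

end

theorem abs_cr_le (a b : ℂ) : |cr a b| ≤ ‖a‖ * ‖b‖ := by
  have h1 : cr a b = ((starRingEnd ℂ) a * b).im := by
    simp [cr]
    ring
  rw [h1]
  refine le_trans (Complex.abs_im_le_norm _) ?_
  rw [norm_mul, Complex.norm_conj]

theorem cr_add_right (a b c : ℂ) : cr a (b + c) = cr a b + cr a c := by
  simp [cr]; ring

theorem cr_add_left (a b c : ℂ) : cr (a + b) c = cr a c + cr b c := by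
  simp [cr]; ring

theorem cr_ee (t : ℝ) : cr (ee t) (Complex.I * ee t) = 1 := by
  simp only [cr, Complex.mul_re, Complex.mul_im, Complex.I_re, Complex.I_im, ee_re, ee_im]
  have := Real.sin_sq_add_cos_sq t
  nlinarith

section

variable {x : ℂ × ℂ} {w w' : ℝ → ℝ} {η : ℝ}

theorem cr_pos (hx : ‖x‖ ≤ 1 / 100) (hη : η ≤ 1 / 100) (hR : Rough η w w') (t h : ℝ) (h0 : 0 < h) (h1 : h ≤ 1 / 10) :
    0 < cr (ZZ x w t) (ZZ x w (t + h)) := by
  have hD := D_near hx hη hR t h h0.le h1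
  have hZ := ZZ_near hx hη hR t
  set e : ℂ := ZZ x w (t + h) - ZZ x w t - (h : ℂ) * (Complex.I * ee t) with he
  set δ : ℂ := ZZ x w t - ee t with hδ
  have h2 : ZZ x w (t + h) = ZZ x w t + ((h : ℂ) * (Complex.I * ee t) + e) := by
    rw [he]; ring
  have h3 : cr (ZZ x w t) (ZZ x w (t + h)) = cr (ZZ x w t) ((h : ℂ) * (Complex.I * ee t) + e) := by
    rw [h2, cr_add_right]
    simp [cr]
    ring
  have h4 : ZZ x w t = ee t + δ := by rw [hδ]; ring
  have h5 : ∀ a b : ℂ, cr a ((h : ℂ) * b) = h * cr a b := by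
    intro a b
    simp [cr]
    ring
  rw [h3, h4, cr_add_right, cr_add_left, cr_add_left, h5, h5, cr_ee]
  have h6 := abs_cr_le δ (Complex.I * ee t)
  have h7 := abs_cr_le (ee t) e
  have h8 := abs_cr_le δ e
  rw [norm_mul, Complex.norm_I, norm_ee] at h6
  rw [norm_ee] at h7
  have h9 : ‖δ‖ * ‖e‖ ≤ 1 / 25 * (1 / 4 * h) := mul_le_mul hZ hD (norm_nonneg _) (by norm_num)
  have a6 := (abs_le.1 h6).1
  have a7 := (abs_le.1 h7).1
  have a8 := (abs_le.1 h8).1
  have a6' : h * cr δ (Complex.I * ee t) ≥ h * (-(1 / 25)) := mul_le_mul_of_nonneg_left (by linarith) h0.le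
  nlinarith

/-- local convexity of the curve -/
theorem cr_nonneg {K : Set ℂ} (hK : Convex ℝ K) (hx : ‖x‖ ≤ 1 / 100) (hη : η ≤ 1 / 100) (hR : Rough η w w')
    (hB : Bd K x w) (t h : ℝ) (h0 : 0 < h) (h1 : h ≤ 1 / 20) :
    0 ≤ cr (ZZ x w (t + h) - ZZ x w t) (ZZ x w (t + h + h) - ZZ x w (t + h)) := by
  by_contra hneg
  push Not at hneg
  have hw : ∀ s, 0 < 1 + w s := by
    intro s
    have h2 := (abs_le.1 (hR.bdd s)).1
    linarith
  have hmem : ∀ s, ZZ x w s ∈ K := by
    intro s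
    have h2 := hR.bdd s
    exact (hB s (w s) (by linarith [hw s])).2 le_rfl
  have hPQ := cr_pos hx hη hR t h h0 (by linarith)
  have hQR := cr_pos hx hη hR (t + h) h h0 (by linarith)
  have hPR := cr_pos hx hη hR t (h + h) (by linarith) (by linarith)
  rw [← add_assoc] at hPR
  set P := ZZ x w t with hP
  set Q := ZZ x w (t + h) with hQ
  set R := ZZ x w (t + h + h) with hR'
  have e1 : cr (Q - P) (R - Q) = cr Q R + cr P Q - cr P R := by
    simp [cr]; ring
  rw [e1] at hneg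
  have e2 : ((cr P R : ℝ) : ℂ) * Q = ((cr Q R : ℝ) : ℂ) * P + ((cr P Q : ℝ) : ℂ) * R := by
    apply Complex.ext
    · simp [cr]; ring
    · simp [cr]; ring
  have hs : 0 < cr Q R + cr P Q := by linarith
  set s : ℝ := cr P R / (cr Q R + cr P Q) with hsdef
  have hs1 : 1 < s := by
    rw [hsdef, lt_div_iff₀ hs]
    linarith
  have e3 : (s : ℂ) * Q = (cr Q R / (cr Q R + cr P Q)) • P + (cr P Q / (cr Q R + cr P Q)) • R := by
    have h2 : ((cr Q R + cr P Q : ℝ) : ℂ) ≠ 0 := by exact_mod_cast hs.ne'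
    rw [Complex.real_smul, Complex.real_smul, hsdef]
    push_cast at h2 ⊢
    field_simp
    exact e2
  have e4 : (s : ℂ) * Q ∈ K := by
    rw [e3]
    refine hK (hmem t) (hmem (t + h + h)) (by positivity) (by positivity) ?_
    field_simp
  have e5 : (s : ℂ) * Q = ((1 + (s * (1 + w (t + h)) - 1) : ℝ) : ℂ) * zh x (t + h) := by
    rw [hQ]
    unfold ZZ
    push_cast
    ring
  rw [e5] at e4
  have hpos : 0 < s * (1 + w (t + h)) := mul_pos (by linarith) (hw _)
  have e6 := (hB (t + h) (s * (1 + w (t + h)) - 1) (by linarith)).1 e4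
  nlinarith [hw (t + h)]

/-- the difference -/
noncomputable def DD (x : ℂ × ℂ) (w : ℝ → ℝ) (h t : ℝ) : ℂ := ZZ x w (t + h) - ZZ x w t

/-- the direction of the outer normal of the edge -/
noncomputable def al (x : ℂ × ℂ) (w : ℝ → ℝ) (h t : ℝ) : ℝ :=
  t + Complex.arg (DD x w h t * (starRingEnd ℂ) (Complex.I * ee t))

theorem I_ee_unit (t : ℝ) : (starRingEnd ℂ) (Complex.I * ee t) * (Complex.I * ee t) = 1 := by
  rw [map_mul, Complex.conj_I]
  have h := ee_conj_mul t
  have h2 : -Complex.I * (starRingEnd ℂ) (ee t) * (Complex.I * ee t) =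
      -(Complex.I * Complex.I) * ((starRingEnd ℂ) (ee t) * ee t) := by ring
  rw [h2, h, Complex.I_mul_I]
  ring

theorem al_spec (h t : ℝ) : DD x w h t = ((‖DD x w h t‖ : ℝ) : ℂ) * (Complex.I * ee (al x w h t)) := by
  set q : ℂ := DD x w h t * (starRingEnd ℂ) (Complex.I * ee t) with hq
  have h1 := Complex.norm_mul_exp_arg_mul_I q
  have h2 : ‖q‖ = ‖DD x w h t‖ := by
    rw [hq, norm_mul, Complex.norm_conj, norm_mul, Complex.norm_I, norm_ee, one_mul, mul_one]
  have h3 : DD x w h t = q * (Complex.I * ee t) := by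
    rw [hq, mul_assoc, I_ee_unit, mul_one]
  have h4 : ee (al x w h t) = ee t * Complex.exp (Complex.arg q * Complex.I) := by
    unfold al
    rw [← hq, ee_add]
    rfl
  rw [h4, ← h2]
  rw [← h1] at h3
  rw [h1] at h3
  calc DD x w h t = q * (Complex.I * ee t) := h3
    _ = (‖q‖ * Complex.exp (Complex.arg q * Complex.I)) * (Complex.I * ee t) := by rw [h1]
    _ = _ := by ring

theorem DD_re (hx : ‖x‖ ≤ 1 / 100) (hη : η ≤ 1 / 100) (hR : Rough η w w') (t h : ℝ) (h0 : 0 < h) (h1 : h ≤ 1 / 10) :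
    0 < (DD x w h t * (starRingEnd ℂ) (Complex.I * ee t)).re := by
  have hD := D_near hx hη hR t h h0.le h1
  set e : ℂ := ZZ x w (t + h) - ZZ x w t - (h : ℂ) * (Complex.I * ee t) with he
  have h2 : DD x w h t * (starRingEnd ℂ) (Complex.I * ee t) =
      (h : ℂ) + e * (starRingEnd ℂ) (Complex.I * ee t) := by
    have h3 : DD x w h t = (h : ℂ) * (Complex.I * ee t) + e := by
      unfold DD
      rw [he]; ring
    rw [h3, add_mul, mul_assoc, mul_comm (Complex.I * ee t), I_ee_unit, mul_one]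
  rw [h2, Complex.add_re, Complex.ofReal_re]
  have h4 := Complex.abs_re_le_norm (e * (starRingEnd ℂ) (Complex.I * ee t))
  rw [norm_mul, Complex.norm_conj, norm_mul, Complex.norm_I, norm_ee, one_mul, mul_one] at h4
  have h5 := (abs_le.1 h4).1
  linarith

theorem DD_pos (hx : ‖x‖ ≤ 1 / 100) (hη : η ≤ 1 / 100) (hR : Rough η w w') (t h : ℝ) (h0 : 0 < h) (h1 : h ≤ 1 / 10) :
    0 < ‖DD x w h t‖ := by
  rw [norm_pos_iff]
  intro hc
  have h2 := DD_re hx hη hR t h h0 h1
  rw [hc, zero_mul] at h2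
  simp at h2

theorem al_abs (hx : ‖x‖ ≤ 1 / 100) (hη : η ≤ 1 / 100) (hR : Rough η w w') (t h : ℝ) (h0 : 0 < h) (h1 : h ≤ 1 / 10) :
    |al x w h t - t| < Real.pi / 2 := by
  unfold al
  rw [add_sub_cancel_left]
  exact Complex.abs_arg_lt_pi_div_two_iff.2 (Or.inl (DD_re hx hη hR t h h0 h1))

theorem al_per (hR : Rough η w w') (h t : ℝ) : al x w h (t + 2 * Real.pi) = al x w h t + 2 * Real.pi := by
  unfold al DD
  have h1 : t + 2 * Real.pi + h = (t + h) + 2 * Real.pi := by ring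
  rw [h1, ZZ_per hR, ZZ_per hR, ee_per]
  ring

theorem al_mono {K : Set ℂ} (hK : Convex ℝ K) (hx : ‖x‖ ≤ 1 / 100) (hη : η ≤ 1 / 100) (hR : Rough η w w')
    (hB : Bd K x w) (t h : ℝ) (h0 : 0 < h) (h1 : h ≤ 1 / 20) : al x w h t ≤ al x w h (t + h) := by
  by_contra hc
  push Not at hc
  have h2 : 0 ≤ cr (DD x w h t) (DD x w h (t + h)) := cr_nonneg hK hx hη hR hB t h h0 h1
  have h3 := DD_pos hx hη hR t h h0 (by linarith)
  have h4 := DD_pos hx hη hR (t + h) h h0 (by linarith)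
  have h5 := (abs_lt.1 (al_abs hx hη hR t h h0 (by linarith))).2
  have h6 := (abs_lt.1 (al_abs hx hη hR (t + h) h h0 (by linarith))).1
  have h7 : Real.sin (al x w h (t + h) - al x w h t) < 0 :=
    Real.sin_neg_of_neg_of_neg_pi_lt (by linarith) (by linarith)
  have h8 : cr (DD x w h t) (DD x w h (t + h)) =
      ‖DD x w h t‖ * ‖DD x w h (t + h)‖ * Real.sin (al x w h (t + h) - al x w h t) := by
    conv_lhs => rw [al_spec h t, al_spec h (t + h)]
    rw [Real.sin_sub]
    simp only [cr, Complex.mul_re, Complex.mul_im, Complex.I_re, Complex.I_im, ee_re, ee_im, Complex.ofReal_re,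
      Complex.ofReal_im]
    ring
  rw [h8] at h2
  have h9 : 0 < ‖DD x w h t‖ * ‖DD x w h (t + h)‖ := mul_pos h3 h4
  nlinarith

end

/-! ## the support function -/

theorem hs_cont {K : Set ℂ} (hK : IsCompact K) : Continuous (hs K) := by
  have h := IsCompact.continuous_sSup (K := K) hK
    (f := fun (u : ℝ) (z : ℂ) => (z * (starRingEnd ℂ) (ee u)).re) (by
      have h1 := continuous_ee
      have h2 : Continuous (starRingEnd ℂ : ℂ → ℂ) := Complex.continuous_conj
      have : Continuous (fun p : ℝ × ℂ => (p.2 * (starRingEnd ℂ) (ee p.1)).re) := by fun_prop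
      exact this)
  exact h

theorem hs_le {K : Set ℂ} (hK : IsCompact K) (u : ℝ) (z : ℂ) (hz : z ∈ K) :
    (z * (starRingEnd ℂ) (ee u)).re ≤ hs K u := by
  refine le_csSup ?_ ⟨z, hz, rfl⟩
  have h1 : Continuous (fun z : ℂ => (z * (starRingEnd ℂ) (ee u)).re) := by fun_prop
  exact (hK.image h1).bddAbove

theorem hs_max {K : Set ℂ} (hK : IsCompact K) (hne : K.Nonempty) (u : ℝ) :
    ∃ p ∈ K, hs K u ≤ (p * (starRingEnd ℂ) (ee u)).re := by
  have h1 : Continuous (fun z : ℂ => (z * (starRingEnd ℂ) (ee u)).re) := by fun_prop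
  obtain ⟨p, hp, h2⟩ := (hK.image h1).sSup_mem (hne.image _)
  exact ⟨p, hp, h2.ge⟩

theorem hs_per (K : Set ℂ) (u : ℝ) : hs K (u + 2 * Real.pi) = hs K u := by
  unfold hs
  rw [ee_per]

theorem int_re (Z : ℂ) (a b : ℝ) : ∫ u in a..b, (Z * (starRingEnd ℂ) (ee u)).re =
    (Z.re * Real.sin b - Z.im * Real.cos b) - (Z.re * Real.sin a - Z.im * Real.cos a) := by
  have h1 : ∀ u : ℝ, (Z * (starRingEnd ℂ) (ee u)).re = Z.re * Real.cos u - Z.im * (-Real.sin u) := by
    intro u
    simp [ee_re, ee_im]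
  simp only [h1]
  refine intervalIntegral.integral_eq_sub_of_hasDerivAt (f := fun u => Z.re * Real.sin u - Z.im * Real.cos u) ?_ ?_
  · intro u _
    exact ((Real.hasDerivAt_sin u).const_mul _).sub ((Real.hasDerivAt_cos u).const_mul _)
  · exact (by fun_prop : Continuous fun u => Z.re * Real.cos u - Z.im * (-Real.sin u)).intervalIntegrable _ _

section

variable {x : ℂ × ℂ} {w w' : ℝ → ℝ} {η : ℝ}

theorem ZZ_mem {K : Set ℂ} (hη : η ≤ 1 / 100) (hR : Rough η w w') (hB : Bd K x w) (s : ℝ) : ZZ x w s ∈ K := by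
  have h2 := (abs_le.1 (hR.bdd s)).1
  exact (hB s (w s) (by linarith)).2 le_rfl

/-- the perimeter of the polygon is at most the integral of the support function -/
theorem poly {K : Set ℂ} (hK : Convex ℝ K) (hKc : IsCompact K) (hx : ‖x‖ ≤ 1 / 100) (hη : η ≤ 1 / 100)
    (hR : Rough η w w') (hB : Bd K x w) (h : ℝ) (h0 : 0 < h) (h1 : h ≤ 1 / 20) (n : ℕ)
    (hn : (n : ℝ) * h = 2 * Real.pi) (τ : ℝ) :
    ∑ i ∈ Finset.range n, ‖DD x w h (τ + i * h)‖ ≤ ∫ u in (0 : ℝ)..(2 * Real.pi), hs K u := by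
  set a : ℕ → ℝ := fun i => al x w h (τ + i * h) with ha
  set Z : ℕ → ℂ := fun i => ZZ x w (τ + i * h) with hZ
  have hstep : ∀ i : ℕ, τ + ((i + 1 : ℕ) : ℝ) * h = (τ + i * h) + h := by
    intro i
    push_cast
    ring
  have hmono : ∀ i, a i ≤ a (i + 1) := by
    intro i
    simp only [ha]
    rw [hstep]
    exact al_mono hK hx hη hR hB _ h h0 h1
  have han : a n = a 0 + 2 * Real.pi := by
    simp only [ha]
    rw [hn, al_per hR]
    simp
  have hZn : Z n = Z 0 := by
    simp only [hZ]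
    rw [hn, ZZ_per hR]
    simp
  have hcont := hs_cont hKc
  have hint : ∀ c d, IntervalIntegrable (hs K) volume c d := fun c d => hcont.intervalIntegrable c d
  have e1 : ∫ u in (a 0)..(a n), hs K u = ∫ u in (0 : ℝ)..(2 * Real.pi), hs K u := by
    have hp : Function.Periodic (hs K) (2 * Real.pi) := hs_per K
    have h2 := hp.intervalIntegral_add_eq (a 0) 0
    rw [zero_add] at h2
    rw [han]
    exact h2
  have e2 : ∑ i ∈ Finset.range n, ∫ u in (a i)..(a (i + 1)), hs K u = ∫ u in (a 0)..(a n), hs K u :=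
    intervalIntegral.sum_integral_adjacent_intervals (fun k _ => hint _ _)
  rw [← e1, ← e2]
  have e3 : ∀ i ∈ Finset.range n, ∫ u in (a i)..(a (i + 1)), (Z (i + 1) * (starRingEnd ℂ) (ee u)).re ≤
      ∫ u in (a i)..(a (i + 1)), hs K u := by
    intro i _
    refine intervalIntegral.integral_mono_on (hmono i) ?_ (hint _ _) ?_
    · refine Continuous.intervalIntegrable ?_ _ _
      have h2 := continuous_ee
      have h3 : Continuous (starRingEnd ℂ : ℂ → ℂ) := Complex.continuous_conj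
      fun_prop
    · intro u _
      exact hs_le hKc u _ (ZZ_mem hη hR hB _)
  refine le_trans (le_of_eq ?_) (Finset.sum_le_sum e3)
  simp only [int_re]
  have e4 : ∑ i ∈ Finset.range n, (((Z (i + 1)).re * Real.sin (a (i + 1)) - (Z (i + 1)).im * Real.cos (a (i + 1))) -
      ((Z i).re * Real.sin (a i) - (Z i).im * Real.cos (a i))) = 0 := by
    rw [Finset.sum_range_sub (fun i => (Z i).re * Real.sin (a i) - (Z i).im * Real.cos (a i)), hZn, han,
      Real.sin_add_two_pi, Real.cos_add_two_pi]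
    ring
  rw [← sub_eq_zero, ← Finset.sum_sub_distrib, ← neg_eq_zero, ← Finset.sum_neg_distrib, ← e4]
  refine Finset.sum_congr rfl ?_
  intro i _
  have e5 := al_spec (x := x) (w := w) h (τ + i * h)
  have e6 : DD x w h (τ + i * h) = Z (i + 1) - Z i := by
    simp only [hZ]
    rw [hstep]
    rfl
  have e7 : al x w h (τ + i * h) = a i := rfl
  rw [e7, e6] at e5
  rw [e6]
  set ρ : ℝ := ‖Z (i + 1) - Z i‖ with hρ
  have r1 : (Z (i + 1)).re - (Z i).re = -(ρ * Real.sin (a i)) := by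
    have h2 := congrArg Complex.re e5
    simp only [Complex.mul_re, Complex.mul_im, Complex.I_re, Complex.I_im, ee_re, ee_im, Complex.ofReal_re,
      Complex.ofReal_im, Complex.sub_re] at h2
    rw [h2]
    ring
  have r2 : (Z (i + 1)).im - (Z i).im = ρ * Real.cos (a i) := by
    have h2 := congrArg Complex.im e5
    simp only [Complex.mul_re, Complex.mul_im, Complex.I_re, Complex.I_im, ee_re, ee_im, Complex.ofReal_re,
      Complex.ofReal_im, Complex.sub_im] at h2
    rw [h2]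
    ring
  have r3 := Real.sin_sq_add_cos_sq (a i)
  have r4 : ρ = ρ * (Real.sin (a i) ^ 2 + Real.cos (a i) ^ 2) := by rw [r3, mul_one]
  have r5 : (Z (i + 1)).re = (Z i).re - ρ * Real.sin (a i) := by linarith
  have r6 : (Z (i + 1)).im = (Z i).im + ρ * Real.cos (a i) := by linarith
  rw [r5, r6]
  nlinarith [r4]

theorem DD_cont (hR : Rough η w w') (h : ℝ) : Continuous (fun t => DD x w h t) := by
  have h1 := ZZ_cont (x := x) hR
  unfold DD
  fun_prop

theorem int_bound {K : Set ℂ} (hK : Convex ℝ K) (hKc : IsCompact K) (hx : ‖x‖ ≤ 1 / 100) (hη : η ≤ 1 / 100)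
    (hR : Rough η w w') (hB : Bd K x w) (h : ℝ) (h0 : 0 < h) (h1 : h ≤ 1 / 20) (n : ℕ)
    (hn : (n : ℝ) * h = 2 * Real.pi) :
    ∫ t in (0 : ℝ)..(2 * Real.pi), ‖DD x w h t‖ / h ≤ ∫ u in (0 : ℝ)..(2 * Real.pi), hs K u := by
  set H : ℝ := ∫ u in (0 : ℝ)..(2 * Real.pi), hs K u with hH
  have hpi := Real.pi_pos
  have hc := DD_cont (x := x) hR h
  have hper : ∀ t, ‖DD x w h (t + 2 * Real.pi)‖ = ‖DD x w h t‖ := by
    intro t
    unfold DD
    have h2 : t + 2 * Real.pi + h = (t + h) + 2 * Real.pi := by ring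
    rw [h2, ZZ_per hR, ZZ_per hR]
  have e1 : ∑ i ∈ Finset.range n, ∫ t in (0 : ℝ)..(2 * Real.pi), ‖DD x w h (t + i * h)‖ =
      (n : ℝ) * ∫ t in (0 : ℝ)..(2 * Real.pi), ‖DD x w h t‖ := by
    rw [Finset.sum_congr rfl (fun (i : ℕ) _ => integral_shift (fun t => ‖DD x w h t‖) hper (i * h)),
      Finset.sum_const, Finset.card_range, nsmul_eq_mul]
  have e2 : ∑ i ∈ Finset.range n, ∫ t in (0 : ℝ)..(2 * Real.pi), ‖DD x w h (t + i * h)‖ =
      ∫ t in (0 : ℝ)..(2 * Real.pi), ∑ i ∈ Finset.range n, ‖DD x w h (t + i * h)‖ := by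
    rw [intervalIntegral.integral_finsetSum]
    intro i _
    exact (by fun_prop : Continuous fun t : ℝ => ‖DD x w h (t + i * h)‖).intervalIntegrable _ _
  have e3 : ∫ t in (0 : ℝ)..(2 * Real.pi), ∑ i ∈ Finset.range n, ‖DD x w h (t + i * h)‖ ≤
      ∫ t in (0 : ℝ)..(2 * Real.pi), H := by
    refine intervalIntegral.integral_mono_on (by positivity) ?_ intervalIntegrable_const ?_
    · exact (by fun_prop : Continuous fun t : ℝ =>
        ∑ i ∈ Finset.range n, ‖DD x w h (t + i * h)‖).intervalIntegrable _ _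
    · intro t _
      exact poly hK hKc hx hη hR hB h h0 h1 n hn t
  rw [intervalIntegral.integral_const, smul_eq_mul, sub_zero, ← e2, e1, ← hn] at e3
  rw [intervalIntegral.integral_div, div_le_iff₀ h0]
  have hn0 : 0 < (n : ℝ) := by
    by_contra hc'
    have h2 : (n : ℝ) = 0 := le_antisymm (not_lt.1 hc') (Nat.cast_nonneg n)
    rw [h2, zero_mul] at hn
    linarith
  rw [hn] at e3
  have e4 : (n : ℝ) * ∫ t in (0 : ℝ)..(2 * Real.pi), ‖DD x w h t‖ ≤ (n : ℝ) * (H * h) := by
    refine le_trans e3 (le_of_eq ?_)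
    rw [← hn]
    ring
  exact le_of_mul_le_mul_left e4 hn0

theorem hTIP : StTip := by
  intro K x w w' η hbody _ hout hx hη hR hB
  obtain ⟨hconv, hcomp, hne⟩ := hbody
  have hne' : K.Nonempty := hne.mono interior_subset
  refine ⟨hs_cont hcomp, hs_per K, fun u => hs_max hcomp hne' u, ?_⟩
  have hpi := Real.pi_pos
  set h : ℕ → ℝ := fun n => 2 * Real.pi / ((n + 200 : ℕ) : ℝ) with hh
  have hpos : ∀ n, 0 < h n := by
    intro n
    simp only [hh]
    positivity
  have hle : ∀ n, h n ≤ 1 / 20 := by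
    intro n
    simp only [hh]
    rw [div_le_iff₀ (by positivity)]
    have h1 := Real.pi_lt_four
    push_cast
    have h2 : (0 : ℝ) ≤ n := Nat.cast_nonneg n
    nlinarith
  have hmul : ∀ n, ((n + 200 : ℕ) : ℝ) * h n = 2 * Real.pi := by
    intro n
    simp only [hh]
    field_simp
  have hlim : Tendsto h atTop (nhds 0) := by
    have h1 : Tendsto (fun n : ℕ => ((n + 200 : ℕ) : ℝ)) atTop atTop :=
      tendsto_natCast_atTop_atTop.comp (tendsto_add_atTop_nat 200)
    exact h1.const_div_atTop (2 * Real.pi)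
  have hpt : ∀ t : ℝ, Tendsto (fun n => ‖DD x w (h n) t‖ / h n) atTop (nhds ‖ZD x w w' t‖) := by
    intro t
    have h1 := ZZ_der (x := x) hR t
    rw [hasDerivWithinAt_iff_tendsto_slope' (by simp)] at h1
    have h2 : Tendsto (fun n => t + h n) atTop (nhdsWithin t (Ioi t)) := by
      rw [tendsto_nhdsWithin_iff]
      refine ⟨?_, Eventually.of_forall fun n => ?_⟩
      · have h3 := hlim.const_add t
        rw [add_zero] at h3
        exact h3
      · simp [hpos n]
    have h3 := (h1.comp h2).norm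
    refine h3.congr ?_
    intro n
    simp only [Function.comp_apply, slope, vsub_eq_sub, norm_smul, norm_inv, Real.norm_eq_abs]
    rw [add_sub_cancel_left, abs_of_pos (hpos n)]
    unfold DD
    rw [div_eq_inv_mul]
  have hconvg : Tendsto (fun n => ∫ t in (0 : ℝ)..(2 * Real.pi), ‖DD x w (h n) t‖ / h n) atTop
      (nhds (∫ t in (0 : ℝ)..(2 * Real.pi), ‖ZD x w w' t‖)) := by
    refine intervalIntegral.tendsto_integral_filter_of_dominated_convergence (fun _ => 2) ?_ ?_ ?_ ?_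
    · refine Eventually.of_forall fun n => ?_
      have hc := DD_cont (x := x) hR (h n)
      exact (by fun_prop : Continuous fun t : ℝ => ‖DD x w (h n) t‖ / h n).aestronglyMeasurable
    · refine Eventually.of_forall fun n => ?_
      refine Eventually.of_forall fun t _ => ?_
      rw [Real.norm_eq_abs, abs_of_nonneg (div_nonneg (norm_nonneg _) (hpos n).le), div_le_iff₀ (hpos n)]
      have h1 := D_near hx hη hR t (h n) (hpos n).le (by linarith [hle n])
      have h2 : ‖DD x w (h n) t‖ ≤ ‖ZZ x w (t + h n) - ZZ x w t - (h n : ℂ) * (Complex.I * ee t)‖ +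
          ‖(h n : ℂ) * (Complex.I * ee t)‖ := by
        have h3 := norm_add_le (ZZ x w (t + h n) - ZZ x w t - (h n : ℂ) * (Complex.I * ee t))
          ((h n : ℂ) * (Complex.I * ee t))
        rw [sub_add_cancel] at h3
        exact h3
      rw [norm_mul, norm_mul, Complex.norm_I, norm_ee, Complex.norm_real, Real.norm_eq_abs, abs_of_pos (hpos n)] at h2
      linarith [hpos n]
    · exact intervalIntegrable_const
    · exact Eventually.of_forall fun t _ => hpt t
  exact le_of_tendsto' hconvg (fun n => int_bound hconv hcomp hx hη hR hB (h n) (hpos n) (hle n) (n + 200) (hmul n))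

end

end Pool.Agent.Helper70.LT
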